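import Pool.Agent.Q27.QR.GI
import Pool.Agent.W726.MO.BC

/-!
# The number of bad points, with finitely many exceptional zeros
-/

set_option autoImplicit false

namespace Pool.Agent.Q27.QR

open Finset Filter Topology MeasureTheory Complex
open Pool.Agent.W76.MO
open Pool.Agent.W726.MOBC (gauss_int gauss_integrable sqW_eq sqW_int sqW_val log_gap spacing A_bound
  norm_G)

lemma calc_aux (η P Q l CA LX M n C2 e : ℝ) (hη : η ≠ 0) (hP : P ≠ 0) (hl : l ≠ 0) :
    η / P * (e / 2 * (l * (64 * CA ^ 2 * LX ^ 2 * (2 * Q / η)) +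
      1 / l * (P / η * (M ^ 2 * (n * C2))))) =
    l * (e / 2 * (64 * CA ^ 2 * (2 * (Q / P)))) * LX ^ 2 + 1 / l * (e / 2 * C2 * M ^ 2 * n) := by
  field_simp

/-- the exceptional zeros contribute little -/
lemma sumEG_small (l0 : List ℂ) (hl : ∀ ρ ∈ l0, ρ.re < 1) (c : ℝ) (hc : 0 < c) :
    ∃ X₀ : ℝ, 2 ≤ X₀ ∧ ∀ X η y : ℝ, X₀ ≤ X → 0 < η → η ≤ 1 → X ≤ y → y ≤ 2 * X →
      ‖(l0.map (fun ρ => EG ρ η y)).sum‖ ≤ c * (η * X) := by
  induction l0 generalizing c with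
  | nil =>
    refine ⟨2, le_refl _, fun X η y hX hη _ _ _ => ?_⟩
    simp only [List.map_nil, List.sum_nil, norm_zero]
    have : 0 < X := by linarith
    positivity
  | cons ρ l ih =>
    obtain ⟨X1, hX1, h1⟩ := ih (fun ρ' hρ' => hl ρ' (List.mem_cons_of_mem _ hρ')) (c / 2)
      (by positivity)
    set β : ℝ := max ρ.re 0 with hβ
    have hβ0 : 0 ≤ β := le_max_right _ _
    have hβ1 : β < 1 := max_lt (hl ρ List.mem_cons_self) one_pos
    set K : ℝ := Real.exp (1 / 2) * Real.sqrt (2 * Real.pi) with hK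
    have hK0 : 0 < K := by
      have : 0 < Real.sqrt (2 * Real.pi) := Real.sqrt_pos.2 (by positivity)
      positivity
    have ht : Tendsto (fun X : ℝ => X ^ (-(1 - β))) atTop (𝓝 0) :=
      tendsto_rpow_neg_atTop (by linarith)
    have hev : ∀ᶠ X : ℝ in atTop, X ^ (-(1 - β)) < c / (4 * K) :=
      ht.eventually_lt_const (by positivity)
    obtain ⟨X2, hX2⟩ := hev.exists_forall_of_atTop
    refine ⟨max X1 X2, le_trans hX1 (le_max_left _ _), fun X η y hX hη hη1 hy hy' => ?_⟩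
    have hX1' : X1 ≤ X := le_trans (le_max_left _ _) hX
    have hX0 : 0 < X := by linarith
    have hy0 : 0 < y := by linarith
    have h2 := h1 X η y hX1' hη hη1 hy hy'
    have h3 := EG_bound ρ β (le_max_left _ _) hβ0 hβ1.le η y hη hη1 hy0
    have h4 := hX2 X (le_trans (le_max_right _ _) hX)
    have h5 : y ^ β ≤ 2 * (X * X ^ (-(1 - β))) := by
      have e : X * X ^ (-(1 - β)) = X ^ β := by
        conv_lhs => rw [← Real.rpow_one X, ← Real.rpow_mul hX0.le, one_mul]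
        rw [← Real.rpow_add hX0]
        congr 1
        ring
      rw [e]
      calc y ^ β ≤ (2 * X) ^ β := Real.rpow_le_rpow hy0.le hy' hβ0
        _ = 2 ^ β * X ^ β := Real.mul_rpow (by norm_num) hX0.le
        _ ≤ 2 * X ^ β := by
            refine mul_le_mul_of_nonneg_right ?_ (by positivity)
            calc (2 : ℝ) ^ β ≤ (2 : ℝ) ^ (1 : ℝ) :=
                  Real.rpow_le_rpow_of_exponent_le (by norm_num) hβ1.le
              _ = 2 := Real.rpow_one 2
    have h6 : K * (η * y ^ β) ≤ c / 2 * (η * X) := by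
      have h7 : X * X ^ (-(1 - β)) ≤ X * (c / (4 * K)) := mul_le_mul_of_nonneg_left h4.le hX0.le
      calc K * (η * y ^ β) ≤ K * (η * (2 * (X * (c / (4 * K))))) := by
            gcongr
            linarith
        _ = c / 2 * (η * X) := by
            field_simp
            ring
    simp only [List.map_cons, List.sum_cons]
    refine (norm_add_le _ _).trans ?_
    linarith

/-- the number of well spaced points where the Gaussian sum is far from its main term -/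
theorem bcE {θ : ℝ} {l0 : List ℂ} {A : ℂ → ℂ} (hθ : 0 ≤ θ) (hl0 : ∀ ρ ∈ l0, ρ.re < 1)
    (hA : IsAE θ l0 A) (σ₀ c : ℝ) (hσ : θ < σ₀) (hσ1 : σ₀ < 1) (hc : 0 < c) :
  ∃ C : ℝ, 0 < C ∧ ∃ X₀ : ℝ, 2 ≤ X₀ ∧ ∀ X η : ℝ, X₀ ≤ X → 1 / X ≤ η → η ≤ 1 → ∀ Y : Finset ℝ,
    (∀ y ∈ Y, X ≤ y ∧ y ≤ 2 * X) → (∀ y ∈ Y, ∀ y' ∈ Y, y ≠ y' → η * X ≤ |y - y'|) →
    (∀ y ∈ Y, c * (η * X) ≤ |DG η y - MG η y|) →
      (Y.card : ℝ) ≤ C * (Real.log X) ^ 2 * X ^ (2 * σ₀ - 2) / η ^ 2 := by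
  obtain ⟨X₀, hX₀, hsmall⟩ := sumEG_small l0 hl0 (c / 2) (by positivity)
  obtain ⟨CA, hCA, hb⟩ := hA.bound σ₀ hσ
  obtain ⟨C2, hC2, hsp⟩ := spacing
  have hσ0 : 0 < σ₀ := by linarith
  set K1 : ℝ := Real.exp (1 / 2) / 2 * (64 * CA ^ 2 * 2) with hK1
  set K2 : ℝ := Real.exp (1 / 2) / 2 * C2 with hK2
  have hK1p : 0 < K1 := by positivity
  have hK2p : 0 < K2 := by positivity
  refine ⟨64 * K1 * K2 / c ^ 2, by positivity, X₀, hX₀, ?_⟩
  intro X η hXX hη hη1 Y hY hsep hD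
  have hX : 2 ≤ X := hX₀.trans hXX
  have hX0 : 0 < X := by linarith
  have hη0 : 0 < η := lt_of_lt_of_le (by positivity) hη
  have hlogX : 0 < Real.log X := Real.log_pos (by linarith)
  have hlogX2 : 0 < (Real.log X) ^ 2 := by positivity
  set M : ℝ := (2 * X) ^ σ₀ with hM
  have hM0 : 0 < M := by positivity
  set D : ℝ → ℝ := fun y => DG η y - MG η y with hDdef
  set EE : ℝ → ℂ := fun y => (l0.map (fun ρ => EG ρ η y)).sum with hEEdef
  have hEE : ∀ y ∈ Y, ‖EE y‖ ≤ c / 2 * (η * X) := fun y hy =>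
    hsmall X η y hXX hη0 hη1 (hY y hy).1 (hY y hy).2
  set e : ℝ → ℝ := fun y => if 0 ≤ D y then 1 else -1 with he
  have heD : ∀ y, e y * D y = |D y| := by
    intro y
    simp only [he]
    split_ifs with h
    · rw [abs_of_nonneg h, one_mul]
    · rw [abs_of_neg (not_le.mp h)]; ring
  have he1 : ∀ y, |e y| = 1 := by
    intro y
    simp only [he]
    split_ifs <;> simp
  set a : ℝ → ℝ := fun y => e y * Real.exp (σ₀ * Real.log y) with ha
  set W : ℝ → ℂ := fun t => ∑ y ∈ Y, (a y : ℂ) * cexp (I * (Real.log y : ℝ) * t) with hW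
  have haM : ∀ y ∈ Y, |a y| ≤ M := by
    intro y hy
    have hy0 : 0 < y := hX0.trans_le (hY y hy).1
    simp only [ha]
    rw [abs_mul, he1, one_mul, abs_of_pos (Real.exp_pos _), mul_comm, ← Real.rpow_def_of_pos hy0]
    exact Real.rpow_le_rpow hy0.le (hY y hy).2 hσ0.le
  -- the path
  set s : ℝ → ℂ := fun t => (σ₀ : ℂ) + t * I with hs
  have hsre : ∀ t, (s t).re = σ₀ := by intro t; simp [hs]
  have hsim : ∀ t, (s t).im = t := by intro t; simp [hs]
  have hsc : Continuous s := by fun_prop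
  have hAc : Continuous (fun t => A (s t)) := by
    refine hA.diff.continuousOn.comp_continuous hsc fun t => ?_
    show θ < (s t).re
    rw [hsre]
    exact hσ
  have hAb : ∀ t, ‖A (s t)‖ ≤ CA * Real.log (|t| + 3) := by
    intro t
    have := hb (s t) (by rw [hsre]) (by rw [hsre]; linarith)
    rwa [hsim] at this
  set E : ℝ → ℝ := fun t => Real.exp (-(η ^ 2 / 2) * t ^ 2) with hE
  have hE0 : ∀ t, 0 < E t := fun t => Real.exp_pos _
  have hEc : Continuous E := by fun_prop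
  have hA2 : ∀ t, ‖A (s t)‖ ^ 2 * E t ≤
      64 * CA ^ 2 * (Real.log X) ^ 2 * Real.exp (-(η ^ 2 / 4) * t ^ 2) := fun t =>
    A_bound CA X η t hCA hX hη _ (hAb t)
  have hgi : Integrable (fun t : ℝ => Real.exp (-(η ^ 2 / 4) * t ^ 2)) :=
    integrable_exp_neg_mul_sq (by positivity)
  have hEi : Integrable E := integrable_exp_neg_mul_sq (by positivity)
  have hA2i : Integrable (fun t => ‖A (s t)‖ ^ 2 * E t) := by
    refine (hgi.const_mul (64 * CA ^ 2 * (Real.log X) ^ 2)).mono' ?_ ?_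
    · exact ((hAc.norm.pow 2).mul hEc).aestronglyMeasurable
    · refine Eventually.of_forall fun t => ?_
      rw [Real.norm_of_nonneg (by have := hE0 t; positivity)]
      exact hA2 t
  -- the functions F y
  set F : ℝ → ℝ → ℂ := fun y t => A (s t) *
    cexp ((η : ℂ) ^ 2 / 2 * (s t) ^ 2 + (s t) * Real.log y) with hF
  have hFc : ∀ y, Continuous (F y) := by
    intro y
    have h1 : Continuous (fun t => (η : ℂ) ^ 2 / 2 * (s t) ^ 2 + (s t) * Real.log y) := by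
      fun_prop
    exact hAc.mul (Complex.continuous_exp.comp h1)
  have hFeq : ∀ y t, F y t = (A (s t) * cexp ((η : ℂ) ^ 2 / 2 * (s t) ^ 2)) *
      ((Real.exp (σ₀ * Real.log y) : ℝ) : ℂ) * cexp (I * (Real.log y : ℝ) * t) := by
    intro y t
    simp only [hF]
    rw [ofReal_exp, mul_assoc, mul_assoc, ← Complex.exp_add, ← Complex.exp_add]
    congr 2
    simp only [hs]
    push_cast
    ring
  have hFi : ∀ y, Integrable (F y) := by
    intro y
    have hdom : Integrable (fun t => Real.exp (1 / 2) * Real.exp (σ₀ * Real.log y) *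
        (E t + ‖A (s t)‖ ^ 2 * E t)) := (hEi.add hA2i).const_mul _
    refine hdom.mono' (hFc y).aestronglyMeasurable (Eventually.of_forall fun t => ?_)
    have hn : ‖cexp (I * (Real.log y : ℝ) * t)‖ = 1 := by
      rw [show I * ((Real.log y : ℝ) : ℂ) * (t : ℂ) = ((Real.log y * t : ℝ) : ℂ) * I by
        push_cast; ring]
      exact Complex.norm_exp_ofReal_mul_I _
    rw [hFeq, norm_mul, norm_mul, norm_mul, hn, mul_one, Complex.norm_real,
      Real.norm_of_nonneg (Real.exp_pos _).le]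
    have h1 := norm_G σ₀ η t hσ0 hσ1 hη0 hη1
    have h2 : ‖A (s t)‖ ≤ 1 + ‖A (s t)‖ ^ 2 := by nlinarith [sq_nonneg (‖A (s t)‖ - 1)]
    have h3 : ‖A (s t)‖ * ‖cexp ((η : ℂ) ^ 2 / 2 * (s t) ^ 2)‖ ≤
        (1 + ‖A (s t)‖ ^ 2) * (Real.exp (1 / 2) * E t) :=
      mul_le_mul h2 h1 (norm_nonneg _) (by positivity)
    calc ‖A (s t)‖ * ‖cexp ((η : ℂ) ^ 2 / 2 * (s t) ^ 2)‖ * Real.exp (σ₀ * Real.log y) ≤
        ((1 + ‖A (s t)‖ ^ 2) * (Real.exp (1 / 2) * E t)) * Real.exp (σ₀ * Real.log y) :=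
          mul_le_mul_of_nonneg_right h3 (Real.exp_pos _).le
      _ = _ := by ring
  have hDF : ∀ y ∈ Y, ((D y : ℝ) : ℂ) + EE y = ((η / Real.sqrt (2 * Real.pi) : ℝ) : ℂ) *
      ∫ t, F y t := by
    intro y hy
    exact giE hθ hl0 hA σ₀ η y hσ hσ1 hη0
  have hsum : ((∑ y ∈ Y, |D y| : ℝ) : ℂ) + ∑ y ∈ Y, (e y : ℂ) * EE y =
      ((η / Real.sqrt (2 * Real.pi) : ℝ) : ℂ) *
      ∫ t, (A (s t) * cexp ((η : ℂ) ^ 2 / 2 * (s t) ^ 2)) * W t := by
    have h1 : ∀ t, (A (s t) * cexp ((η : ℂ) ^ 2 / 2 * (s t) ^ 2)) * W t =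
        ∑ y ∈ Y, (e y : ℂ) * F y t := by
      intro t
      simp only [hW]
      rw [Finset.mul_sum]
      refine Finset.sum_congr rfl fun y _ => ?_
      rw [hFeq]
      simp only [ha]
      push_cast
      ring
    simp_rw [h1]
    rw [integral_finsetSum _ (fun y _ => (hFi y).const_mul _), Finset.mul_sum]
    push_cast
    rw [← Finset.sum_add_distrib]
    refine Finset.sum_congr rfl fun y hy => ?_
    rw [integral_const_mul, ← heD y]
    push_cast
    rw [← mul_add, hDF y hy]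
    push_cast
    ring
  -- upper bound
  have hWi : Integrable (fun t => ‖W t‖ ^ 2 * E t) := sqW_int η hη0 Y a (fun y => Real.log y)
  have hWv : ∫ t, ‖W t‖ ^ 2 * E t ≤ Real.sqrt (2 * Real.pi) / η * (M ^ 2 * (Y.card * C2)) := by
    have h1 := sqW_val η hη0 Y a (fun y => Real.log y)
    have h2 : ∫ t, ‖W t‖ ^ 2 * E t = Real.sqrt (2 * Real.pi) / η *
        ∑ y ∈ Y, ∑ z ∈ Y, a y * a z * Real.exp (-(Real.log y - Real.log z) ^ 2 / (2 * η ^ 2)) :=
      h1
    rw [h2]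
    refine mul_le_mul_of_nonneg_left ?_ (by positivity)
    have h3 : ∀ y ∈ Y, ∑ z ∈ Y, a y * a z *
        Real.exp (-(Real.log y - Real.log z) ^ 2 / (2 * η ^ 2)) ≤ M ^ 2 * C2 := by
      intro y hy
      calc ∑ z ∈ Y, a y * a z * Real.exp (-(Real.log y - Real.log z) ^ 2 / (2 * η ^ 2)) ≤
          ∑ z ∈ Y, M ^ 2 * Real.exp (-(Real.log y - Real.log z) ^ 2 / (2 * η ^ 2)) := by
            refine Finset.sum_le_sum fun z hz => ?_
            refine mul_le_mul_of_nonneg_right ?_ (Real.exp_pos _).le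
            calc a y * a z ≤ |a y * a z| := le_abs_self _
              _ = |a y| * |a z| := abs_mul _ _
              _ ≤ M * M := mul_le_mul (haM y hy) (haM z hz) (abs_nonneg _) hM0.le
              _ = M ^ 2 := by ring
        _ = M ^ 2 * ∑ z ∈ Y, Real.exp (-(Real.log y - Real.log z) ^ 2 / (2 * η ^ 2)) := by
            rw [Finset.mul_sum]
        _ ≤ M ^ 2 * C2 := mul_le_mul_of_nonneg_left (hsp X η hX0 hη0 Y hY hsep y hy)
            (by positivity)
    calc _ ≤ ∑ y ∈ Y, M ^ 2 * C2 := Finset.sum_le_sum h3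
      _ = M ^ 2 * (Y.card * C2) := by
          rw [Finset.sum_const, nsmul_eq_mul]; ring
  have hAv : ∫ t, ‖A (s t)‖ ^ 2 * E t ≤
      64 * CA ^ 2 * (Real.log X) ^ 2 * (2 * Real.sqrt Real.pi / η) := by
    calc ∫ t, ‖A (s t)‖ ^ 2 * E t ≤
        ∫ t, 64 * CA ^ 2 * (Real.log X) ^ 2 * Real.exp (-(η ^ 2 / 4) * t ^ 2) :=
          integral_mono hA2i (hgi.const_mul _) hA2
      _ = _ := by
          rw [integral_const_mul, integral_gaussian]
          congr 1
          rw [show Real.pi / (η ^ 2 / 4) = (2 / η) ^ 2 * Real.pi by field_simp; ring,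
            Real.sqrt_mul (by positivity), Real.sqrt_sq (by positivity)]
          ring
  have hpt : ∀ l : ℝ, 0 < l → ∀ t, ‖(A (s t) * cexp ((η : ℂ) ^ 2 / 2 * (s t) ^ 2)) * W t‖ ≤
      Real.exp (1 / 2) / 2 * (l * (‖A (s t)‖ ^ 2 * E t) + 1 / l * (‖W t‖ ^ 2 * E t)) := by
    intro l hl t
    rw [norm_mul, norm_mul]
    have h1 := norm_G σ₀ η t hσ0 hσ1 hη0 hη1
    have h2 : ‖A (s t)‖ * ‖W t‖ ≤ (l * ‖A (s t)‖ ^ 2 + 1 / l * ‖W t‖ ^ 2) / 2 := by
      have h3 : 0 ≤ (1 / l) * (l * ‖A (s t)‖ - ‖W t‖) ^ 2 := by positivity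
      have h4 : (1 / l) * (l * ‖A (s t)‖ - ‖W t‖) ^ 2 =
          l * ‖A (s t)‖ ^ 2 - 2 * (‖A (s t)‖ * ‖W t‖) + 1 / l * ‖W t‖ ^ 2 := by
        field_simp
        ring
      linarith
    calc ‖A (s t)‖ * ‖cexp ((η : ℂ) ^ 2 / 2 * (s t) ^ 2)‖ * ‖W t‖ =
        (‖A (s t)‖ * ‖W t‖) * ‖cexp ((η : ℂ) ^ 2 / 2 * (s t) ^ 2)‖ := by ring
      _ ≤ ((l * ‖A (s t)‖ ^ 2 + 1 / l * ‖W t‖ ^ 2) / 2) * (Real.exp (1 / 2) * E t) :=
          mul_le_mul h2 h1 (norm_nonneg _) (by positivity)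
      _ = _ := by ring
  have hupper : ∀ l : ℝ, 0 < l → ∑ y ∈ Y, |D y| ≤
      l * K1 * (Real.log X) ^ 2 + 1 / l * (K2 * M ^ 2 * Y.card) +
        (Y.card : ℝ) * (c / 2 * (η * X)) := by
    intro l hl
    have h0 : 0 ≤ ∑ y ∈ Y, |D y| := Finset.sum_nonneg fun y _ => abs_nonneg _
    have h1 : ∑ y ∈ Y, |D y| = ‖((∑ y ∈ Y, |D y| : ℝ) : ℂ)‖ := by
      rw [Complex.norm_real, Real.norm_of_nonneg h0]
    have hE2 : ‖∑ y ∈ Y, (e y : ℂ) * EE y‖ ≤ (Y.card : ℝ) * (c / 2 * (η * X)) := by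
      refine (norm_sum_le _ _).trans ?_
      rw [← nsmul_eq_mul]
      refine Finset.sum_le_card_nsmul _ _ _ fun y hy => ?_
      rw [norm_mul, Complex.norm_real, Real.norm_eq_abs, he1, one_mul]
      exact hEE y hy
    have hsum' : ((∑ y ∈ Y, |D y| : ℝ) : ℂ) = ((η / Real.sqrt (2 * Real.pi) : ℝ) : ℂ) *
      (∫ t, (A (s t) * cexp ((η : ℂ) ^ 2 / 2 * (s t) ^ 2)) * W t) -
        ∑ y ∈ Y, (e y : ℂ) * EE y := by
      rw [← hsum]
      ring
    rw [h1, hsum']
    refine (norm_sub_le _ _).trans (add_le_add ?_ hE2)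
    rw [norm_mul, Complex.norm_real, Real.norm_of_nonneg (by positivity)]
    have hdomi : Integrable (fun t => Real.exp (1 / 2) / 2 * (l * (‖A (s t)‖ ^ 2 * E t) +
        1 / l * (‖W t‖ ^ 2 * E t))) := ((hA2i.const_mul l).add (hWi.const_mul (1 / l))).const_mul _
    have h2 : ‖∫ t, (A (s t) * cexp ((η : ℂ) ^ 2 / 2 * (s t) ^ 2)) * W t‖ ≤
        Real.exp (1 / 2) / 2 * (l * (64 * CA ^ 2 * (Real.log X) ^ 2 * (2 * Real.sqrt Real.pi / η)) +
          1 / l * (Real.sqrt (2 * Real.pi) / η * (M ^ 2 * (Y.card * C2)))) := by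
      refine (norm_integral_le_of_norm_le hdomi (Eventually.of_forall (hpt l hl))).trans ?_
      rw [integral_const_mul, integral_add (hA2i.const_mul l) (hWi.const_mul (1 / l)),
        integral_const_mul, integral_const_mul]
      have := mul_le_mul_of_nonneg_left hAv hl.le
      have := mul_le_mul_of_nonneg_left hWv (show 0 ≤ 1 / l by positivity)
      refine mul_le_mul_of_nonneg_left ?_ (by positivity)
      linarith
    have hpi : 0 < Real.sqrt (2 * Real.pi) := Real.sqrt_pos.mpr (by positivity)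
    have hpi2 : Real.sqrt Real.pi ≤ Real.sqrt (2 * Real.pi) :=
      Real.sqrt_le_sqrt (by have := Real.pi_pos; linarith)
    calc η / Real.sqrt (2 * Real.pi) * ‖∫ t, (A (s t) * cexp ((η : ℂ) ^ 2 / 2 * (s t) ^ 2)) * W t‖ ≤
        η / Real.sqrt (2 * Real.pi) * (Real.exp (1 / 2) / 2 *
          (l * (64 * CA ^ 2 * (Real.log X) ^ 2 * (2 * Real.sqrt Real.pi / η)) +
          1 / l * (Real.sqrt (2 * Real.pi) / η * (M ^ 2 * (Y.card * C2))))) :=
          mul_le_mul_of_nonneg_left h2 (by positivity)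
      _ = l * (Real.exp (1 / 2) / 2 * (64 * CA ^ 2 * (2 * (Real.sqrt Real.pi /
          Real.sqrt (2 * Real.pi))))) * (Real.log X) ^ 2 +
          1 / l * (K2 * M ^ 2 * Y.card) := by
          rw [hK2]
          exact calc_aux η _ _ l CA _ M _ C2 _ hη0.ne' hpi.ne' hl.ne'
      _ ≤ _ := by
          have h4 : Real.sqrt Real.pi / Real.sqrt (2 * Real.pi) ≤ 1 := by
            rw [div_le_one hpi]; exact hpi2
          have h5 : l * (Real.exp (1 / 2) / 2 * (64 * CA ^ 2 * (2 * (Real.sqrt Real.pi /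
              Real.sqrt (2 * Real.pi))))) * (Real.log X) ^ 2 ≤
              l * (Real.exp (1 / 2) / 2 * (64 * CA ^ 2 * (2 * 1))) * (Real.log X) ^ 2 := by
            gcongr
          have h6 : l * (Real.exp (1 / 2) / 2 * (64 * CA ^ 2 * (2 * 1))) * (Real.log X) ^ 2 =
              l * K1 * (Real.log X) ^ 2 := by rw [hK1]; ring
          linarith
  have hlower : (Y.card : ℝ) * (c * (η * X)) ≤ ∑ y ∈ Y, |D y| := by
    have := Finset.card_nsmul_le_sum Y (fun y => |D y|) (c * (η * X)) hD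
    simpa [nsmul_eq_mul] using this
  -- choice of the parameter
  set l : ℝ := 4 * K2 * M ^ 2 / (c * (η * X)) with hl
  have hl0 : 0 < l := by positivity
  have h1 := hlower.trans (hupper l hl0)
  have h2 : 1 / l * (K2 * M ^ 2 * Y.card) = (Y.card : ℝ) * (c * (η * X)) / 4 := by
    rw [hl]; field_simp
  have h3 : l * K1 * (Real.log X) ^ 2 = 4 * K1 * K2 * M ^ 2 * (Real.log X) ^ 2 / (c * (η * X)) := by
    rw [hl]; ring
  rw [h2, h3] at h1
  have h4 : (Y.card : ℝ) * (c * (η * X)) ≤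
      16 * K1 * K2 * M ^ 2 * (Real.log X) ^ 2 / (c * (η * X)) := by
    have : 16 * K1 * K2 * M ^ 2 * (Real.log X) ^ 2 / (c * (η * X)) =
      4 * (4 * K1 * K2 * M ^ 2 * (Real.log X) ^ 2 / (c * (η * X))) := by ring
    rw [this]
    have e4 : (Y.card : ℝ) * (c / 2 * (η * X)) = (Y.card : ℝ) * (c * (η * X)) / 2 := by ring
    rw [e4] at h1
    linarith
  have h5 : (Y.card : ℝ) ≤ 16 * K1 * K2 * M ^ 2 * (Real.log X) ^ 2 / (c * (η * X)) ^ 2 := by
    rw [le_div_iff₀ (by positivity)]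
    rw [le_div_iff₀ (by positivity)] at h4
    calc (Y.card : ℝ) * (c * (η * X)) ^ 2 = (Y.card : ℝ) * (c * (η * X)) * (c * (η * X)) := by ring
      _ ≤ _ := h4
  have hM2 : M ^ 2 ≤ 4 * X ^ (2 * σ₀) := by
    have h6 : M ^ 2 = (2 * X) ^ (2 * σ₀) := by
      rw [hM, ← Real.rpow_natCast, ← Real.rpow_mul (by positivity)]
      congr 1
      push_cast
      ring
    rw [h6, Real.mul_rpow (by norm_num) hX0.le]
    refine mul_le_mul_of_nonneg_right ?_ (by positivity)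
    calc (2 : ℝ) ^ (2 * σ₀) ≤ (2 : ℝ) ^ (2 : ℝ) :=
          Real.rpow_le_rpow_of_exponent_le (by norm_num) (by linarith)
      _ = 4 := by norm_num
  have h7 : X ^ (2 * σ₀ - 2) = X ^ (2 * σ₀) / X ^ 2 := by
    rw [Real.rpow_sub hX0]
    norm_num
  calc (Y.card : ℝ) ≤ 16 * K1 * K2 * M ^ 2 * (Real.log X) ^ 2 / (c * (η * X)) ^ 2 := h5
    _ ≤ 16 * K1 * K2 * (4 * X ^ (2 * σ₀)) * (Real.log X) ^ 2 / (c * (η * X)) ^ 2 := by
        gcongr
    _ = _ := by
        rw [h7]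
        field_simp
        ring

end Pool.Agent.Q27.QR
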