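import Pool.Agent.Q27.QR.Stmts
import Pool.Agent.W475.MO.GI

/-!
# The Gaussian explicit formula with finitely many exceptional zeros
-/

set_option autoImplicit false

namespace Pool.Agent.Q27.QR

open Complex MeasureTheory Filter Topology Set Pool.Agent.W76.MO
open Pool.Agent.W475.MO (G norm_G integrable_G continuous_G gauss sum_side G_sub int_side log_le_exp
  bound_G e1 integrable_pole)

/-- a norm bound for the integrand of `EG` -/
lemma EG_integrand (ρ : ℂ) (η y : ℝ) {x : ℝ} (hx : 0 < x) :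
    ‖(x : ℂ) ^ (ρ - 1) * (Real.exp (-(Real.log x - Real.log y) ^ 2 / (2 * η ^ 2)) : ℂ)‖ =
      x ^ (ρ.re - 1) * Real.exp (-(Real.log x - Real.log y) ^ 2 / (2 * η ^ 2)) := by
  rw [norm_mul, Complex.norm_cpow_eq_rpow_re_of_pos hx, Complex.norm_real,
    Real.norm_of_nonneg (Real.exp_pos _).le]
  simp

/-- the size of the contribution of an exceptional zero -/
lemma EG_bound (ρ : ℂ) (β : ℝ) (hρβ : ρ.re ≤ β) (h0 : 0 ≤ β) (h1 : β ≤ 1) (η y : ℝ) (hη : 0 < η)
    (hη1 : η ≤ 1) (hy : 0 < y) :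
    ‖EG ρ η y‖ ≤ Real.exp (1 / 2) * Real.sqrt (2 * Real.pi) * (η * y ^ β) := by
  set L := Real.log y with hL
  have himg : Real.exp '' (Set.Ioi 0) = Set.Ioi (1 : ℝ) := by
    ext x
    constructor
    · rintro ⟨u, hu, rfl⟩
      exact Real.one_lt_exp_iff.2 hu
    · intro hx
      exact ⟨Real.log x, Real.log_pos hx, Real.exp_log (lt_trans one_pos hx)⟩
  have hcv := integral_image_eq_integral_abs_deriv_smul (s := Set.Ioi (0 : ℝ)) measurableSet_Ioi
    (f := Real.exp) (f' := Real.exp) (fun x _ => (Real.hasDerivAt_exp x).hasDerivWithinAt)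
    (Real.exp_injective.injOn)
    (fun x => x ^ (β - 1) * Real.exp (-(Real.log x - L) ^ 2 / (2 * η ^ 2)))
  rw [himg] at hcv
  have hpt : ∀ u : ℝ, |Real.exp u| • ((Real.exp u) ^ (β - 1) *
      Real.exp (-(Real.log (Real.exp u) - L) ^ 2 / (2 * η ^ 2))) =
      Real.exp (β * L + β ^ 2 * η ^ 2 / 2) *
        Real.exp (-(1 / (2 * η ^ 2)) * (u - (L + β * η ^ 2)) ^ 2) := by
    intro u
    rw [abs_of_pos (Real.exp_pos u), smul_eq_mul, Real.log_exp, ← Real.exp_mul, ← Real.exp_add,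
      ← Real.exp_add, ← Real.exp_add]
    congr 1
    field_simp
    ring
  have hgi : Integrable (fun u : ℝ => Real.exp (β * L + β ^ 2 * η ^ 2 / 2) *
        Real.exp (-(1 / (2 * η ^ 2)) * (u - (L + β * η ^ 2)) ^ 2)) :=
    ((integrable_exp_neg_mul_sq (b := 1 / (2 * η ^ 2)) (by positivity)).comp_sub_right
      (L + β * η ^ 2)).const_mul _
  have hval : ∫ u : ℝ, Real.exp (β * L + β ^ 2 * η ^ 2 / 2) *
        Real.exp (-(1 / (2 * η ^ 2)) * (u - (L + β * η ^ 2)) ^ 2) =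
      Real.exp (β * L + β ^ 2 * η ^ 2 / 2) * (Real.sqrt (2 * Real.pi) * η) := by
    rw [integral_const_mul, integral_sub_right_eq_self
      (fun u : ℝ => Real.exp (-(1 / (2 * η ^ 2)) * u ^ 2)) (L + β * η ^ 2), integral_gaussian]
    congr 1
    rw [show Real.pi / (1 / (2 * η ^ 2)) = (2 * Real.pi) * η ^ 2 by field_simp,
      Real.sqrt_mul (by positivity), Real.sqrt_sq hη.le]
  have hii := integrableOn_image_iff_integrableOn_abs_deriv_smul (s := Set.Ioi (0 : ℝ))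
    measurableSet_Ioi
    (f := Real.exp) (f' := Real.exp) (fun x _ => (Real.hasDerivAt_exp x).hasDerivWithinAt)
    (Real.exp_injective.injOn)
    (fun x => x ^ (β - 1) * Real.exp (-(Real.log x - L) ^ 2 / (2 * η ^ 2)))
  rw [himg] at hii
  simp_rw [hpt] at hii
  have hint2 := hii.2 hgi.integrableOn
  have hE : ‖EG ρ η y‖ ≤ ∫ x in Set.Ioi (1 : ℝ), x ^ (β - 1) *
      Real.exp (-(Real.log x - L) ^ 2 / (2 * η ^ 2)) := by
    unfold EG
    refine norm_integral_le_of_norm_le hint2 ?_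
    filter_upwards [ae_restrict_mem (μ := volume) (measurableSet_Ioi (a := (1 : ℝ)))] with x hx
    rw [EG_integrand ρ η y (lt_trans one_pos hx)]
    refine mul_le_mul_of_nonneg_right ?_ (Real.exp_pos _).le
    exact Real.rpow_le_rpow_of_exponent_le (le_of_lt hx) (by linarith)
  refine hE.trans ?_
  rw [hcv]
  simp_rw [hpt]
  refine (setIntegral_le_integral hgi (Eventually.of_forall fun u => by positivity)).trans ?_
  rw [hval]
  have h2 : Real.exp (β * L + β ^ 2 * η ^ 2 / 2) ≤ Real.exp (1 / 2) * y ^ β := by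
    rw [Real.rpow_def_of_pos hy, ← Real.exp_add]
    apply Real.exp_le_exp.2
    have h3 : β ^ 2 ≤ 1 := by nlinarith
    have h4 : η ^ 2 ≤ 1 := by nlinarith
    have h5 : β ^ 2 * η ^ 2 ≤ 1 := by nlinarith [sq_nonneg β, sq_nonneg η]
    have : β * L = Real.log y * β := by rw [hL]; ring
    linarith
  calc Real.exp (β * L + β ^ 2 * η ^ 2 / 2) * (Real.sqrt (2 * Real.pi) * η) ≤
      (Real.exp (1 / 2) * y ^ β) * (Real.sqrt (2 * Real.pi) * η) :=
        mul_le_mul_of_nonneg_right h2 (by positivity)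
    _ = _ := by ring

/-- the integral side of an exceptional zero -/
lemma int_side_E {η : ℝ} (y : ℝ) (hη : 0 < η) (ρ : ℂ) (hρ : ρ.re < 1) :
    EG ρ η y = ((η / Real.sqrt (2 * Real.pi) : ℝ) : ℂ) *
      ∫ t : ℝ, 1 / ((((2 : ℝ) : ℂ) + t * I) - ρ) *
        G η (Real.log y) (((2 : ℝ) : ℂ) + t * I) := by
  have h1 : EG ρ η y = ∫ x in Set.Ioi (1 : ℝ),
      ((η / Real.sqrt (2 * Real.pi) : ℝ) : ℂ) *
        ∫ t : ℝ, (x : ℂ) ^ (ρ - 1) * G η (Real.log y - Real.log x) (((2 : ℝ) : ℂ) + t * I) := by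
    rw [EG]
    apply integral_congr_ae
    filter_upwards with x
    rw [integral_const_mul, mul_left_comm, gauss hη]
    congr 2
    ring_nf
  rw [h1, integral_const_mul]
  congr 1
  have hint : Integrable (Function.uncurry fun (x t : ℝ) =>
      (x : ℂ) ^ (ρ - 1) * G η (Real.log y - Real.log x) (((2 : ℝ) : ℂ) + t * I))
      ((volume.restrict (Set.Ioi (1 : ℝ))).prod volume) := by
    have hb : Integrable (fun z : ℝ × ℝ => z.1 ^ (-2 : ℝ) *
        ‖G η (Real.log y) (((2 : ℝ) : ℂ) + z.2 * I)‖)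
        ((volume.restrict (Set.Ioi (1 : ℝ))).prod volume) :=
      Integrable.mul_prod (f := fun x : ℝ => x ^ (-2 : ℝ))
        (g := fun t : ℝ => ‖G η (Real.log y) (((2 : ℝ) : ℂ) + t * I)‖)
        (integrableOn_Ioi_rpow_of_lt (by norm_num) (by norm_num)) (integrable_G hη _ _)
    refine hb.mono' ?_ ?_
    · apply Measurable.aestronglyMeasurable
      unfold Function.uncurry G
      fun_prop
    · have h0 : ∀ᵐ z : ℝ × ℝ ∂((volume.restrict (Set.Ioi (1 : ℝ))).prod volume),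
          z.1 ∈ Set.Ioi (1 : ℝ) := by
        have := (ae_restrict_mem (μ := volume) (measurableSet_Ioi (a := (1 : ℝ))))
        exact Measure.quasiMeasurePreserving_fst.ae this
      filter_upwards [h0] with z hz
      have hz0 : 0 < z.1 := lt_trans one_pos hz
      rw [Function.uncurry_def]
      simp only
      rw [G_sub _ _ _ hz0, norm_mul, norm_mul, Complex.norm_cpow_eq_rpow_re_of_pos hz0,
        Complex.norm_cpow_eq_rpow_re_of_pos hz0]
      have h2 : z.1 ^ (ρ - 1).re ≤ 1 := by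
        apply Real.rpow_le_one_of_one_le_of_nonpos (le_of_lt hz)
        simp only [sub_re, one_re]
        linarith
      have h3 : (-(((2 : ℝ) : ℂ) + z.2 * I)).re = (-2 : ℝ) := by simp
      rw [h3]
      have h4 : 0 ≤ z.1 ^ (-2 : ℝ) * ‖G η (Real.log y) (((2 : ℝ) : ℂ) + z.2 * I)‖ := by positivity
      calc _ ≤ 1 * (z.1 ^ (-2 : ℝ) * ‖G η (Real.log y) (((2 : ℝ) : ℂ) + z.2 * I)‖) :=
            mul_le_mul_of_nonneg_right h2 h4
        _ = _ := one_mul _
  rw [integral_integral_swap hint]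
  apply integral_congr_ae
  filter_upwards with t
  have h2 : ∫ x in Set.Ioi (1 : ℝ), (x : ℂ) ^ (ρ - 1) *
        G η (Real.log y - Real.log x) (((2 : ℝ) : ℂ) + t * I) =
      ∫ x in Set.Ioi (1 : ℝ), (x : ℂ) ^ (ρ - 1 - (((2 : ℝ) : ℂ) + t * I)) *
        G η (Real.log y) (((2 : ℝ) : ℂ) + t * I) := by
    apply setIntegral_congr_fun measurableSet_Ioi
    intro x hx
    have hx0 : 0 < x := lt_trans one_pos hx
    have hx1 : (x : ℂ) ≠ 0 := by exact_mod_cast hx0.ne'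
    show (x : ℂ) ^ (ρ - 1) * G η (Real.log y - Real.log x) (((2 : ℝ) : ℂ) + t * I) = _
    rw [G_sub _ _ _ hx0, ← mul_assoc, ← Complex.cpow_add _ _ hx1, ← sub_eq_add_neg]
  rw [h2, integral_mul_const, integral_Ioi_cpow_of_lt (by
    simp only [sub_re, one_re, add_re, ofReal_re, mul_re, I_re, mul_zero, ofReal_im, I_im, mul_one,
      sub_self, add_zero]
    linarith) (by norm_num)]
  congr 1
  simp only [Complex.ofReal_one, Complex.one_cpow]
  have h3 : ((2 : ℝ) : ℂ) + t * I - ρ ≠ 0 := by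
    intro h
    have := congrArg Complex.re h
    simp only [sub_re, add_re, ofReal_re, mul_re, I_re, mul_zero, ofReal_im, I_im, mul_one,
      sub_self, add_zero, zero_re] at this
    linarith
  have h4 : ρ - 1 - (((2 : ℝ) : ℂ) + t * I) + 1 ≠ 0 := by
    intro h
    apply h3
    linear_combination -h
  rw [div_eq_div_iff h4 h3]
  ring

lemma hypE {θ : ℝ} {l : List ℂ} {A : ℂ → ℂ} (hθ : 0 ≤ θ) (hA : IsAE θ l A) {σ₀ η : ℝ} (L : ℝ)
    (h1 : θ < σ₀) (h2 : σ₀ < 1)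
    (hη : 0 < η) : ∃ K : ℝ,
    (∀ z : ℂ, z.im ∈ Set.uIcc (-σ₀) (-2) →
      DifferentiableAt ℂ (fun z => A (I * z) * G η L (I * z)) z) ∧
    (∀ z : ℂ, z.im ∈ Set.uIcc (-σ₀) (-2) →
      ‖(fun z => A (I * z) * G η L (I * z)) z‖ ≤ K * Real.exp (-(η ^ 2 / 4) * z.re ^ 2)) := by
  obtain ⟨C, hC, hb⟩ := hA.bound σ₀ h1
  have hab : ∀ z : ℂ, z.im ∈ Set.uIcc (-σ₀) (-2) → σ₀ ≤ (I * z).re ∧ (I * z).re ≤ 2 := by
    intro z hz
    rw [Set.uIcc_of_ge (by linarith)] at hz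
    have h3 : (I * z).re = -z.im := by simp
    rw [h3]
    constructor
    · linarith [hz.2]
    · linarith [hz.1]
  refine ⟨C * ((3 + 1 / η ^ 2) * Real.exp (2 * η ^ 2 + 2 * |L|)), ?_, ?_⟩
  · intro z hz
    obtain ⟨h3, h4⟩ := hab z hz
    have hd : DifferentiableAt ℂ A (I * z) := by
      apply (hA.diff (I * z) (by
        change θ < (I * z).re
        linarith)).differentiableAt
      exact (isOpen_lt continuous_const Complex.continuous_re).mem_nhds (by
        change θ < (I * z).re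
        linarith)
    have hI : DifferentiableAt ℂ (fun z : ℂ => I * z) z := by fun_prop
    apply DifferentiableAt.mul
    · exact DifferentiableAt.comp z hd hI
    · unfold G
      fun_prop
  · intro z hz
    obtain ⟨h3, h4⟩ := hab z hz
    have him : (I * z).im = z.re := by simp
    have h5 := hb (I * z) h3 h4
    have h6 := bound_G (η := η) L (I * z) (by linarith) h4
    rw [him] at h5 h6
    have h7 := log_le_exp hη z.re
    simp only [norm_mul]
    calc ‖A (I * z)‖ * ‖G η L (I * z)‖ ≤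
        (C * ((3 + 1 / η ^ 2) * Real.exp (η ^ 2 / 4 * z.re ^ 2))) *
          (Real.exp (2 * η ^ 2 + 2 * |L|) * Real.exp (-(η ^ 2 / 2) * z.re ^ 2)) := by
          apply mul_le_mul _ h6 (norm_nonneg _) (by positivity)
          exact h5.trans (mul_le_mul_of_nonneg_left h7 hC.le)
      _ = C * ((3 + 1 / η ^ 2) * Real.exp (2 * η ^ 2 + 2 * |L|)) *
          (Real.exp (η ^ 2 / 4 * z.re ^ 2) * Real.exp (-(η ^ 2 / 2) * z.re ^ 2)) := by ring
      _ = _ := by
          rw [← Real.exp_add]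
          congr 2
          ring

lemma shiftE {θ : ℝ} {l : List ℂ} {A : ℂ → ℂ} (hθ : 0 ≤ θ) (hA : IsAE θ l A) {σ₀ η : ℝ} (L : ℝ)
    (h1 : θ < σ₀) (h2 : σ₀ < 1) (hη : 0 < η) :
    ∫ t : ℝ, A ((σ₀ : ℂ) + t * I) * G η L ((σ₀ : ℂ) + t * I) =
      ∫ t : ℝ, A (((2 : ℝ) : ℂ) + t * I) * G η L (((2 : ℝ) : ℂ) + t * I) := by
  obtain ⟨K, ha, hb⟩ := hypE hθ hA L h1 h2 hη
  have key := Pool.Agent.Helper242.KK.shift_line (δ := η ^ 2 / 4) (by positivity) ha hb
  simp only [e1] at key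
  exact key

/-- integrability on the line `Re s = 2` -/
lemma integrable_twoE {θ : ℝ} {l : List ℂ} {A : ℂ → ℂ} (hθ : 0 ≤ θ) (hA : IsAE θ l A) {σ₀ η : ℝ}
    (L : ℝ) (h1 : θ < σ₀) (h2 : σ₀ < 1) (hη : 0 < η) :
    Integrable (fun t : ℝ => A (((2 : ℝ) : ℂ) + t * I) * G η L (((2 : ℝ) : ℂ) + t * I)) := by
  obtain ⟨K, ha, hb⟩ := hypE hθ hA L h1 h2 hη
  have key := Pool.Agent.Helper242.KK.shift_line_integrable (δ := η ^ 2 / 4) (by positivity)
    ha hb Set.right_mem_uIcc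
  simp only [e1] at key
  exact key

lemma integrable_poleE {η : ℝ} (L : ℝ) (hη : 0 < η) (ρ : ℂ) (hρ : ρ.re < 1) :
    Integrable (fun t : ℝ => 1 / ((((2 : ℝ) : ℂ) + t * I) - ρ) *
      G η L (((2 : ℝ) : ℂ) + t * I)) := by
  refine (integrable_G hη L 2).mono' ?_ ?_
  · apply Measurable.aestronglyMeasurable
    unfold G
    fun_prop
  · filter_upwards with t
    rw [norm_mul]
    have h1 : 1 ≤ ‖(((2 : ℝ) : ℂ) + t * I) - ρ‖ := by
      have h3 : (((2 : ℝ) : ℂ) + t * I - ρ).re = 2 - ρ.re := by simp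
      calc (1 : ℝ) ≤ |((((2 : ℝ) : ℂ) + t * I) - ρ).re| := by
            rw [h3]
            exact le_trans (by linarith) (le_abs_self _)
        _ ≤ _ := Complex.abs_re_le_norm _
    have h2 : ‖1 / ((((2 : ℝ) : ℂ) + t * I) - ρ)‖ ≤ 1 := by
      rw [norm_div, norm_one]
      exact div_le_one_of_le₀ h1 (norm_nonneg _)
    calc _ ≤ 1 * ‖G η L (((2 : ℝ) : ℂ) + t * I)‖ := mul_le_mul_of_nonneg_right h2 (norm_nonneg _)
      _ = _ := one_mul _

lemma sum_poles {η : ℝ} (y : ℝ) (hη : 0 < η) : ∀ l : List ℂ, (∀ ρ ∈ l, ρ.re < 1) →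
    Integrable (fun t : ℝ => (l.map (fun ρ => 1 / ((((2 : ℝ) : ℂ) + t * I) - ρ))).sum *
      G η (Real.log y) (((2 : ℝ) : ℂ) + t * I)) ∧
    (l.map (fun ρ => EG ρ η y)).sum = ((η / Real.sqrt (2 * Real.pi) : ℝ) : ℂ) *
      ∫ t : ℝ, (l.map (fun ρ => 1 / ((((2 : ℝ) : ℂ) + t * I) - ρ))).sum *
        G η (Real.log y) (((2 : ℝ) : ℂ) + t * I)
  | [], _ => by simp
  | ρ :: l, h => by
      obtain ⟨h1, h2⟩ := sum_poles y hη l (fun ρ' hρ' => h ρ' (List.mem_cons_of_mem _ hρ'))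
      have h3 := h ρ List.mem_cons_self
      have h4 := integrable_poleE (Real.log y) hη ρ h3
      simp only [List.map_cons, List.sum_cons, add_mul]
      refine ⟨h4.add h1, ?_⟩
      rw [integral_add h4 h1, mul_add, ← h2, ← int_side_E y hη ρ h3]

/-- the Gaussian explicit formula -/
theorem giE {θ : ℝ} {l : List ℂ} {A : ℂ → ℂ} (hθ : 0 ≤ θ) (hl : ∀ ρ ∈ l, ρ.re < 1)
    (hA : IsAE θ l A) (σ₀ η y : ℝ) (h1 : θ < σ₀) (h2 : σ₀ < 1) (hη : 0 < η) :
    ((DG η y - MG η y : ℝ) : ℂ) + (l.map (fun ρ => EG ρ η y)).sum =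
      ((η / Real.sqrt (2 * Real.pi) : ℝ) : ℂ) *
    ∫ t : ℝ, A ((σ₀ : ℂ) + t * Complex.I) *
      Complex.exp ((η : ℂ) ^ 2 / 2 * ((σ₀ : ℂ) + t * Complex.I) ^ 2 +
        ((σ₀ : ℂ) + t * Complex.I) * Real.log y) := by
  have h3 := shiftE hθ hA (Real.log y) h1 h2 hη
  have h4 := sum_side y hη
  have h5 := int_side y hη
  obtain ⟨h7, h8⟩ := sum_poles y hη l hl
  have h6 : ∀ t : ℝ, LSeries (fun n => (ArithmeticFunction.vonMangoldt n : ℂ))
      (((2 : ℝ) : ℂ) + t * I) * G η (Real.log y) (((2 : ℝ) : ℂ) + t * I) =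
      (A (((2 : ℝ) : ℂ) + t * I) * G η (Real.log y) (((2 : ℝ) : ℂ) + t * I) +
      1 / ((((2 : ℝ) : ℂ) + t * I) - 1) * G η (Real.log y) (((2 : ℝ) : ℂ) + t * I)) -
      (l.map (fun ρ => 1 / ((((2 : ℝ) : ℂ) + t * I) - ρ))).sum *
        G η (Real.log y) (((2 : ℝ) : ℂ) + t * I) := by
    intro t
    rw [hA.eq _ (by simp)]
    ring
  simp_rw [h6] at h4
  have h9 : Integrable (fun t : ℝ => A (((2 : ℝ) : ℂ) + t * I) *
      G η (Real.log y) (((2 : ℝ) : ℂ) + t * I) +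
      1 / ((((2 : ℝ) : ℂ) + t * I) - 1) * G η (Real.log y) (((2 : ℝ) : ℂ) + t * I)) :=
    (integrable_twoE hθ hA _ h1 h2 hη).add (integrable_pole _ hη)
  rw [integral_sub h9 h7, integral_add (integrable_twoE hθ hA _ h1 h2 hη) (integrable_pole _ hη), mul_sub, mul_add, ← h5,
    ← h3, ← h8] at h4
  rw [Complex.ofReal_sub, h4]
  have e : ∀ a b c : ℂ, a + b - c - b + c = a := fun a b c => by ring
  rw [e]
  rfl

end Pool.Agent.Q27.QR
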