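import Pool.Agent.Q27.QR.Stmts
import Pool.Agent.W613.MO.ZA

/-!
# The logarithmic derivative of `ζ` when finitely many zeros lie to the right of `Re s = θ`
-/

set_option autoImplicit false

namespace Pool.Agent.Q27.QR

open Complex Filter Topology Set Metric
open Pool.Agent.W613.MO (logDeriv_zero_free Z1 Z1_ne Z1_one Z1_entire Z1_growth)

/-- division of an entire function by a power of `z - ρ` -/
lemma divide_one (f : ℂ → ℂ) (hf : Differentiable ℂ f) (hf0 : ∃ z, f z ≠ 0) (ρ : ℂ) :
    ∃ (n : ℕ) (g : ℂ → ℂ), Differentiable ℂ g ∧ g ρ ≠ 0 ∧ ∀ z, f z = (z - ρ) ^ n * g z := by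
  have han : AnalyticAt ℂ f ρ := hf.analyticAt ρ
  have hne : ¬ ∀ᶠ z in 𝓝 ρ, f z = 0 := by
    intro h
    have h1 : AnalyticOnNhd ℂ f Set.univ := fun z _ => hf.analyticAt z
    have h2 := h1.eqOn_zero_of_preconnected_of_eventuallyEq_zero isPreconnected_univ (Set.mem_univ ρ) h
    obtain ⟨z, hz⟩ := hf0
    exact hz (h2 (Set.mem_univ z))
  obtain ⟨n, g₀, hg₀, hg₀0, hev⟩ := (han.exists_eventuallyEq_pow_smul_nonzero_iff).2 hne
  refine ⟨n, Function.update (fun z => f z / (z - ρ) ^ n) ρ (g₀ ρ), ?_, ?_, ?_⟩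
  · intro z
    by_cases hz : z = ρ
    · subst hz
      refine (hg₀.differentiableAt).congr_of_eventuallyEq ?_
      filter_upwards [hev] with w hw
      by_cases hwz : w = z
      · rw [hwz, Function.update_self]
      · rw [Function.update_of_ne hwz, hw, smul_eq_mul]
        have : (w - z) ^ n ≠ 0 := pow_ne_zero _ (sub_ne_zero.2 hwz)
        field_simp
    · have h1 : DifferentiableAt ℂ (fun w => f w / (w - ρ) ^ n) z := by
        refine (hf z).div (by fun_prop) ?_
        exact pow_ne_zero _ (sub_ne_zero.2 hz)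
      refine h1.congr_of_eventuallyEq ?_
      filter_upwards [isOpen_ne.mem_nhds hz] with w hw
      rw [Function.update_of_ne hw]
  · rw [Function.update_self]
    exact hg₀0
  · intro z
    by_cases hz : z = ρ
    · subst hz
      rw [Function.update_self]
      have := hev.self_of_nhds
      rw [this, smul_eq_mul]
    · rw [Function.update_of_ne hz]
      have : (z - ρ) ^ n ≠ 0 := pow_ne_zero _ (sub_ne_zero.2 hz)
      field_simp

/-- division of an entire function by all its zeros in a set -/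
lemma divide_all (U : Set ℂ) (S : Finset ℂ) : ∀ f : ℂ → ℂ, Differentiable ℂ f → (∃ z, f z ≠ 0) →
    (∀ z ∈ U, f z = 0 → z ∈ S) →
    ∃ (l : List ℂ) (g : ℂ → ℂ), (∀ ρ ∈ l, ρ ∈ S) ∧ Differentiable ℂ g ∧ (∀ z ∈ U, g z ≠ 0) ∧
      ∀ z, f z = (l.map (fun ρ => z - ρ)).prod * g z := by
  classical
  induction S using Finset.induction_on with
  | empty =>
    intro f hf _ hU
    refine ⟨[], f, by simp, hf, fun z hz h0 => ?_, fun z => by simp⟩
    have := hU z hz h0
    simp at this
  | insert ρ S hρ ih =>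
    intro f hf hf0 hU
    obtain ⟨n, g, hg, hgρ, hfg⟩ := divide_one f hf hf0 ρ
    obtain ⟨l, g', hl, hg', hg'0, hgg'⟩ := ih g hg ⟨ρ, hgρ⟩ (by
      intro z hz h0
      have h1 : f z = 0 := by rw [hfg, h0, mul_zero]
      have h2 := hU z hz h1
      rw [Finset.mem_insert] at h2
      rcases h2 with h2 | h2
      · rw [h2] at h0
        exact absurd h0 hgρ
      · exact h2)
    refine ⟨List.replicate n ρ ++ l, g', ?_, hg', hg'0, fun z => ?_⟩
    · intro w hw
      rw [List.mem_append] at hw
      rcases hw with hw | hw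
      · rw [List.eq_of_mem_replicate hw]
        exact Finset.mem_insert_self _ _
      · exact Finset.mem_insert_of_mem (hl w hw)
    · rw [hfg, hgg', List.map_append, List.prod_append, List.map_replicate, List.prod_replicate]
      ring

lemma logDeriv_list (g : ℂ → ℂ) (hg : Differentiable ℂ g) (s : ℂ) (hgs : g s ≠ 0) :
    ∀ l : List ℂ, (∀ ρ ∈ l, s ≠ ρ) →
      (fun z => (l.map (fun ρ => z - ρ)).prod * g z) s ≠ 0 ∧
      logDeriv (fun z => (l.map (fun ρ => z - ρ)).prod * g z) s =
        (l.map (fun ρ => 1 / (s - ρ))).sum + logDeriv g s := by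
  intro l
  induction l with
  | nil =>
    intro _
    simp only [List.map_nil, List.prod_nil, one_mul, List.sum_nil, zero_add]
    exact ⟨hgs, trivial⟩
  | cons ρ l ih =>
    intro h
    obtain ⟨h1, h2⟩ := ih (fun ρ' hρ' => h ρ' (List.mem_cons_of_mem _ hρ'))
    have h3 : s - ρ ≠ 0 := sub_ne_zero.2 (h ρ List.mem_cons_self)
    have e : (fun z => (((ρ :: l).map (fun ρ => z - ρ)).prod * g z)) =
        fun z => (z - ρ) * ((l.map (fun ρ => z - ρ)).prod * g z) := by
      funext z
      rw [List.map_cons, List.prod_cons]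
      ring
    have hd : DifferentiableAt ℂ (fun z => (l.map (fun ρ => z - ρ)).prod * g z) s := by
      have h4 : Differentiable ℂ (fun z : ℂ => (l.map (fun ρ => z - ρ)).prod) := by
        clear ih h1 h2 e h
        induction l with
        | nil => simp
        | cons a l ih2 =>
          simp only [List.map_cons, List.prod_cons]
          exact (by fun_prop : Differentiable ℂ (fun z : ℂ => z - a)).mul ih2
      exact (h4 s).mul (hg s)
    rw [e]
    refine ⟨mul_ne_zero h3 h1, ?_⟩
    rw [logDeriv_mul (f := fun z => z - ρ) s h3 h1 (by fun_prop) hd, h2, List.map_cons,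
      List.sum_cons, ← add_assoc]
    congr 2
    rw [logDeriv_apply]
    simp

/-- a lower bound for the polynomial far from its zeros -/
lemma prod_lower (l : List ℂ) (s : ℂ) (h : ∀ ρ ∈ l, 1 ≤ ‖s - ρ‖) :
    1 ≤ ‖(l.map (fun ρ => s - ρ)).prod‖ := by
  induction l with
  | nil => simp
  | cons ρ l ih =>
    rw [List.map_cons, List.prod_cons, norm_mul]
    have h1 := h ρ List.mem_cons_self
    have h2 := ih (fun ρ' hρ' => h ρ' (List.mem_cons_of_mem _ hρ'))
    nlinarith

/-- an upper bound for the polynomial -/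
lemma prod_upper (l : List ℂ) : ∃ K : ℝ, 1 ≤ K ∧ ∀ s : ℂ, s.re = 2 →
    ‖(l.map (fun ρ => s - ρ)).prod‖ ≤ K * (|s.im| + 3) ^ (l.length) := by
  induction l with
  | nil => exact ⟨1, le_refl _, fun s _ => by simp⟩
  | cons ρ l ih =>
    obtain ⟨K, hK, h⟩ := ih
    refine ⟨K * (1 + ‖ρ‖), by nlinarith [norm_nonneg ρ], fun s hs => ?_⟩
    rw [List.map_cons, List.prod_cons, norm_mul, List.length_cons, pow_succ]
    have h1 : ‖s‖ ≤ |s.im| + 3 := by
      have := Complex.norm_le_abs_re_add_abs_im s
      rw [hs] at this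
      norm_num at this
      linarith
    have h3 : (3 : ℝ) ≤ |s.im| + 3 := by linarith [abs_nonneg s.im]
    have h2 : ‖s - ρ‖ ≤ (1 + ‖ρ‖) * (|s.im| + 3) := by
      have h4 := norm_sub_le s ρ
      nlinarith [norm_nonneg ρ]
    calc ‖s - ρ‖ * ‖(l.map (fun ρ => s - ρ)).prod‖ ≤
        ((1 + ‖ρ‖) * (|s.im| + 3)) * (K * (|s.im| + 3) ^ l.length) :=
          mul_le_mul h2 (h s hs) (norm_nonneg _) (by positivity)
      _ = _ := by ring

lemma bounded_im (l : List ℂ) : ∃ T : ℝ, 0 ≤ T ∧ ∀ ρ ∈ l, |ρ.im| ≤ T := by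
  induction l with
  | nil => exact ⟨0, le_refl _, by simp⟩
  | cons a l ih =>
    obtain ⟨T, hT, h⟩ := ih
    refine ⟨max T |a.im|, le_max_of_le_left hT, fun ρ hρ => ?_⟩
    rw [List.mem_cons] at hρ
    rcases hρ with h1 | h1
    · rw [h1]; exact le_max_right _ _
    · exact (h ρ h1).trans (le_max_left _ _)

theorem zae : ZAE := by
  intro θ hθ hθ1 hfin
  have hZ10 : Z1 1 ≠ 0 := by rw [Z1_one]; exact one_ne_zero
  have hfin' : {s : ℂ | riemannZeta s = 0 ∧ θ < s.re}.Finite := hfin
  obtain ⟨l, g, hl, hg, hg0, hfg⟩ := divide_all {s : ℂ | θ < s.re} hfin'.toFinset Z1 Z1_entire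
    ⟨1, hZ10⟩ (by
      intro z hz h0
      rw [Set.Finite.mem_toFinset]
      refine ⟨?_, hz⟩
      have hz1 : z ≠ 1 := by
        rintro rfl
        exact hZ10 h0
      rw [Z1_ne hz1] at h0
      rcases mul_eq_zero.1 h0 with h | h
      · exact absurd (sub_eq_zero.1 h) hz1
      · exact h)
  have hl1 : ∀ ρ ∈ l, ρ.re < 1 := by
    intro ρ hρ
    have h := hl ρ hρ
    rw [Set.Finite.mem_toFinset] at h
    by_contra hc
    rw [not_lt] at hc
    exact riemannZeta_ne_zero_of_one_le_re hc h.1
  refine ⟨l, hl1, fun s => -(deriv g s / g s), ?_, ?_, ?_⟩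
  · intro s hs
    have h1 : DifferentiableAt ℂ (deriv g) s := (hg.analyticAt s).deriv.differentiableAt
    exact ((h1.div (hg s) (hg0 s hs)).neg).differentiableWithinAt
  · intro s hs
    have hs1 : s ≠ 1 := by rintro rfl; simp at hs
    have hz0 : riemannZeta s ≠ 0 := riemannZeta_ne_zero_of_one_le_re hs.le
    have hd : HasDerivAt (fun w : ℂ => (w - 1) * riemannZeta w)
        (1 * riemannZeta s + (s - 1) * deriv riemannZeta s) s :=
      ((hasDerivAt_id s).sub_const 1).mul (differentiableAt_riemannZeta hs1).hasDerivAt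
    have hd2 : HasDerivAt Z1 (1 * riemannZeta s + (s - 1) * deriv riemannZeta s) s := by
      refine hd.congr_of_eventuallyEq ?_
      filter_upwards [isOpen_ne.mem_nhds hs1] with z hz
      exact Z1_ne hz
    have hs2 : s - 1 ≠ 0 := sub_ne_zero.2 hs1
    have h3 := ArithmeticFunction.LSeries_vonMangoldt_eq_deriv_riemannZeta_div hs
    have hgs : g s ≠ 0 := hg0 s (by
      show θ < s.re
      linarith)
    obtain ⟨-, h4⟩ := logDeriv_list g hg s hgs l (by
      intro ρ hρ h
      have := hl1 ρ hρ
      rw [h] at hs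
      linarith)
    have h5 : (fun z => (l.map (fun ρ => z - ρ)).prod * g z) = Z1 := by
      funext z
      exact (hfg z).symm
    rw [h5, logDeriv_apply, logDeriv_apply] at h4
    have h6 : deriv Z1 s / Z1 s = -LSeries (fun n => (ArithmeticFunction.vonMangoldt n : ℂ)) s +
        1 / (s - 1) := by
      rw [hd2.deriv, Z1_ne hs1, h3]
      field_simp
      ring
    show -(deriv g s / g s) = _
    rw [h6] at h4
    linear_combination h4
  · intro σ₀ hσ
    rcases lt_or_ge 2 σ₀ with h2 | h2
    · exact ⟨1, one_pos, fun s h3 h4 => absurd (h3.trans h4) (not_le.2 h2)⟩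
    obtain ⟨C0, A, hC0, hA, hgr0⟩ := Z1_growth
    obtain ⟨T, hT, hTl⟩ := bounded_im l
    have hcomp : IsCompact ((Set.Icc (1 / 4 : ℝ) 6) ×ℂ (Set.Icc (-(T + 1) : ℝ) (T + 1))) :=
      isCompact_Icc.reProdIm isCompact_Icc
    obtain ⟨C1, hC1⟩ := hcomp.exists_bound_of_continuousOn (f := g) hg.continuous.continuousOn
    obtain ⟨K1, hK1, hup⟩ := prod_upper l
    set C : ℝ := C0 + |C1| with hCdef
    have hC : 1 ≤ C := by
      rw [hCdef]
      linarith [abs_nonneg C1]
    have hgr : ∀ s : ℂ, 1 / 4 ≤ s.re → s.re ≤ 6 → ‖g s‖ ≤ C * (|s.im| + 3) ^ A := by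
      intro s h3 h4
      have h5 : (1 : ℝ) ≤ |s.im| + 3 := by linarith [abs_nonneg s.im]
      have hone : (1 : ℝ) ≤ (|s.im| + 3) ^ A := Real.one_le_rpow h5 (by linarith)
      rcases le_or_gt (T + 1) |s.im| with h | h
      · have h6 : 1 ≤ ‖(l.map (fun ρ => s - ρ)).prod‖ := by
          refine prod_lower l s fun ρ hρ => ?_
          have h7 := Complex.abs_im_le_norm (s - ρ)
          rw [sub_im] at h7
          have h8 : |s.im| ≤ |s.im - ρ.im| + |ρ.im| := by
            have := abs_add_le (s.im - ρ.im) ρ.im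
            simpa using this
          have h9 := hTl ρ hρ
          linarith
        have h7 : ‖g s‖ ≤ ‖Z1 s‖ := by
          rw [hfg s, norm_mul]
          nlinarith [norm_nonneg (g s)]
        refine h7.trans ((hgr0 s h3 h4).trans ?_)
        refine mul_le_mul_of_nonneg_right ?_ (by positivity)
        rw [hCdef]
        linarith [abs_nonneg C1]
      · have h6 := hC1 s (by
          rw [Complex.mem_reProdIm]
          rw [abs_lt] at h
          exact ⟨⟨h3, h4⟩, ⟨h.1.le, h.2.le⟩⟩)
        have h7 := le_abs_self C1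
        calc ‖g s‖ ≤ C1 := h6
          _ ≤ C * 1 := by rw [hCdef]; linarith
          _ ≤ _ := by gcongr
    set M : ℝ := 3 * K1 * C * 2 ^ A with hM
    have hM0 : 0 < M := by positivity
    set K : ℝ := |Real.log M| + A + l.length with hK
    have hK0 : 0 < K := by positivity
    refine ⟨16 * (2 - θ) / (σ₀ - θ) ^ 2 * K, by
      have : 0 < σ₀ - θ := by linarith
      have : 0 < 2 - θ := by linarith
      positivity, fun s hs1 hs2 => ?_⟩
    have him : (3 : ℝ) ≤ |s.im| + 3 := by linarith [abs_nonneg s.im]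
    set L : ℝ := Real.log (|s.im| + 3) with hL
    have hL1 : 1 ≤ L := by
      rw [hL, Real.le_log_iff_exp_le (by linarith)]
      have := Real.exp_one_lt_d9
      linarith
    set c : ℂ := ⟨2, s.im⟩ with hc
    have hcre : c.re = 2 := rfl
    have hcim : c.im = s.im := rfl
    have hball : ∀ z ∈ ball c (2 - θ), θ < z.re ∧ z.re ≤ 6 ∧ |z.im| + 3 ≤ 2 * (|s.im| + 3) := by
      intro z hz
      rw [mem_ball, dist_eq_norm] at hz
      have h1 := (Complex.abs_re_le_norm (z - c)).trans_lt hz
      have h2 := (Complex.abs_im_le_norm (z - c)).trans_lt hz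
      simp only [sub_re, sub_im, hcre, hcim] at h1 h2
      rw [abs_lt] at h1
      have h3 : |z.im| ≤ |z.im - s.im| + |s.im| := by
        have := abs_add_le (z.im - s.im) s.im
        simpa using this
      exact ⟨by linarith [h1.1], by linarith [h1.2], by linarith [abs_nonneg s.im]⟩
    have hc1 : c ≠ 1 := by
      intro h
      have := congrArg Complex.re h
      rw [hcre, one_re] at this
      norm_num at this
    have hZc : 1 / 3 ≤ ‖Z1 c‖ := by
      rw [Z1_ne hc1, norm_mul]
      obtain ⟨hw0, hw1⟩ := SG.zeta_inv_bound c (by rw [hcre])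
      rw [norm_inv] at hw1
      have hpos : 0 < ‖riemannZeta c‖ := norm_pos_iff.2 hw0
      have h3 : 1 / 3 ≤ ‖riemannZeta c‖ := by
        have := (inv_le_comm₀ hpos (by norm_num)).1 hw1
        linarith
      have h4 : 1 ≤ ‖c - 1‖ := by
        have h5 := Complex.abs_re_le_norm (c - 1)
        simp only [sub_re, hcre, one_re] at h5
        norm_num at h5
        exact h5
      nlinarith
    have hgc : 1 ≤ 3 * K1 * (|s.im| + 3) ^ l.length * ‖g c‖ := by
      rw [hfg c, norm_mul] at hZc
      have h3 := hup c hcre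
      rw [hcim] at h3
      have h4 := mul_le_mul_of_nonneg_right h3 (norm_nonneg (g c))
      linarith
    have hB : ∀ z ∈ ball c (2 - θ), ‖g z‖ ≤ Real.exp (K * L) * ‖g c‖ := by
      intro z hz
      obtain ⟨h1, h2, h3⟩ := hball z hz
      have h4 := hgr z (by linarith) h2
      have hpos3 : (0 : ℝ) < |s.im| + 3 := by linarith
      have h5 : (|z.im| + 3) ^ A ≤ (2 * (|s.im| + 3)) ^ A :=
        Real.rpow_le_rpow (by positivity) h3 (by linarith)
      have h6 : (2 * (|s.im| + 3)) ^ A = 2 ^ A * Real.exp (A * L) := by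
        rw [Real.mul_rpow (by norm_num) hpos3.le, hL, Real.rpow_def_of_pos hpos3, mul_comm A]
      have h7 : M ≤ Real.exp (|Real.log M| * L) := by
        calc M = Real.exp (Real.log M) := (Real.exp_log hM0).symm
          _ ≤ _ := Real.exp_le_exp.2 (by
            have h9 := le_abs_self (Real.log M)
            have h10 := abs_nonneg (Real.log M)
            nlinarith)
      have h8 : (|s.im| + 3) ^ l.length = Real.exp (l.length * L) := by
        rw [hL, ← Real.rpow_natCast, Real.rpow_def_of_pos hpos3, mul_comm]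
      calc ‖g z‖ ≤ C * (|z.im| + 3) ^ A := h4
        _ ≤ C * (2 ^ A * Real.exp (A * L)) := by rw [← h6]; gcongr
        _ = C * (2 ^ A * Real.exp (A * L)) * 1 := by ring
        _ ≤ C * (2 ^ A * Real.exp (A * L)) * (3 * K1 * (|s.im| + 3) ^ l.length * ‖g c‖) :=
            mul_le_mul_of_nonneg_left hgc (by positivity)
        _ = M * Real.exp (A * L) * Real.exp (l.length * L) * ‖g c‖ := by
            rw [h8, hM]
            ring
        _ ≤ Real.exp (|Real.log M| * L) * Real.exp (A * L) * Real.exp (l.length * L) * ‖g c‖ := by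
            gcongr
        _ = Real.exp (K * L) * ‖g c‖ := by
            rw [← Real.exp_add, ← Real.exp_add]; congr 2; rw [hK]; ring
    have hfin2 := logDeriv_zero_free (g := g) (c := c) (r := 2 - θ) (r2 := 2 - σ₀) (B := K * L)
      (by linarith) (by linarith) (by linarith) (by positivity)
      (fun z _ => hg.analyticAt z)
      (fun z hz => hg0 z (hball z hz).1) hB (z := s)
      (by
        rw [mem_closedBall, dist_eq_norm]
        have e : s - c = ((s.re - 2 : ℝ) : ℂ) := by
          apply Complex.ext <;> simp [hc]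
        rw [e, Complex.norm_real, Real.norm_eq_abs, abs_le]
        constructor <;> linarith)
    rw [norm_neg]
    refine hfin2.trans (le_of_eq ?_)
    have e1 : (2 - θ : ℝ) - (2 - σ₀) = σ₀ - θ := by ring
    rw [e1]
    ring

end Pool.Agent.Q27.QR
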