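import Pool.Agent.Q27.QR.FB
import Pool.Agent.Q27.QR.US
import Pool.Agent.Q27.QR.ZA
import Pool.Agent.Q27.CM.Main

set_option autoImplicit false

/-!
# A completely multiplicative function of sum zero with small partial sums, provided that `ζ` has
only finitely many zeros to the right of `Re s = 1/2 + η₀`
-/

namespace Pool.Agent.Q27.QR

open Finset
open scoped Classical
open Pool.Agent.W76.MO Pool.Agent.Q27.CM

theorem exists_envQ (ε : ℝ) (hε : 0 < ε) : ∃ η₀ δ : ℝ, 0 < η₀ ∧ η₀ < 1 / 2 ∧ 0 < δ ∧ 9 * δ ≤ ε ∧
    (FinRight (1 / 2 + η₀) → ∃ E : Env, E.δ = δ) := by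
  obtain ⟨τ₀, γ₀, c, δ₀, hτ₀, hγ₀, hc, hδ₀, hhost⟩ := hosts
  set τ : ℝ := min (min τ₀ γ₀) (1 / 100) with hτd
  have hτ : 0 < τ := lt_min (lt_min hτ₀ hγ₀) (by norm_num)
  have hτ1 : τ ≤ 1 / 100 := min_le_right _ _
  set δ : ℝ := min (min δ₀ (τ / 1000)) (ε / 9) with hδd
  have hδ : 0 < δ := lt_min (lt_min hδ₀ (by positivity)) (by positivity)
  have hδ1 : δ ≤ τ / 1000 := (min_le_left _ _).trans (min_le_right _ _)
  have hδ2 : δ < 1 / 4 := by linarith
  have hδ3 : 9 * δ ≤ ε := by
    have : δ ≤ ε / 9 := min_le_right _ _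
    linarith
  refine ⟨δ / 4, δ, by positivity, by linarith, hδ, hδ3, fun hfin => ?_⟩
  obtain ⟨i₀, hi₀, hhost⟩ := hhost δ hδ ((min_le_left _ _).trans (min_le_left _ _))
  obtain ⟨l0, hl0, A, hA⟩ := zae (1 / 2 + δ / 4) (by linarith) (by linarith) hfin
  obtain ⟨cf, hcf, hF⟩ := fbE (Pool.Agent.W815.CL.cellLow Pool.Agent.W761.MO.btr)
  obtain ⟨i₃, hi₃, hF⟩ := hF (1 / 2 + δ / 4) l0 A (by linarith) (by linarith) hl0 hA δ (δ / 4) hδ hδ2
    (by positivity)
  obtain ⟨isU, CU, cU, i₁, hCU, hcU, hi₁, hup, huu, hub⟩ :=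
    usE Pool.Agent.W761.MO.btr τ δ hτ hτ1 hδ hδ1 cf hcf i₃ hi₃ (fun i hi => by
      refine (hF i hi).trans ?_
      apply Real.rpow_le_rpow_of_exponent_le (by norm_num)
      have : (0 : ℝ) ≤ i := Nat.cast_nonneg i
      apply mul_le_mul_of_nonneg_right _ this
      linarith)
  obtain ⟨CB, hCB, i₂, hi₂, hbtr⟩ := Pool.Agent.W761.MO.btr τ (τ / 4) hτ (by positivity)
  exact ⟨{ τ := τ, δ := δ, CU := CU, cU := cU, cH := c, CB := max CB 1, isU := isU
           i₁ := i₀ + i₁ + i₂
           hτ := hτ, hτ' := hτ1, hδ := hδ, hδ' := hδ1, hCU := hCU, hcU := hcU, hcH := hc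
           hCB := le_max_right _ _
           hi₁ := by omega
           u_prime := hup
           u_up := fun i hi => huu i (by omega)
           u_bad := fun i hi => hub i (by omega)
           host := by
             intro i hi k hk
             have hmul := nc_mul δ hδ i
             have hlt : (k + 1) * hh δ i ≤ nc δ i * hh δ i := Nat.mul_le_mul_right _ hk
             have h1 := hhost i (by omega) (2 ^ i + k * hh δ i) (by omega) (by
               rw [pow_succ]
               have : k * hh δ i ≤ (k + 1) * hh δ i := Nat.mul_le_mul_right _ (Nat.le_succ k)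
               omega)
             refine h1.trans ?_
             have hi0 : (0 : ℝ) ≤ i := Nat.cast_nonneg i
             have hsub : (Ioc (2 ^ i + k * hh δ i) (2 ^ i + k * hh δ i + hh δ i)).filter
                 (HostNum τ₀ γ₀ i) ⊆ (cell δ i k).filter (HostNum τ τ i) := by
               intro n hn
               rw [mem_filter, mem_Ioc] at hn
               rw [mem_filter]
               refine ⟨?_, ?_⟩
               · unfold cell
                 rw [mem_Ioc]
                 have : (k + 1) * hh δ i = k * hh δ i + hh δ i := by ring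
                 omega
               · obtain ⟨m, q, h1, h2, h3, h4, h5, h6⟩ := hn.2
                 refine ⟨m, q, h1, h2, ?_, h4, h5, ?_⟩
                 · refine le_trans (Real.rpow_le_rpow_of_exponent_le (by norm_num) ?_) h3
                   have : τ ≤ τ₀ := (min_le_left _ _).trans (min_le_left _ _)
                   apply mul_le_mul_of_nonneg_right _ hi0
                   linarith
                 · intro p hp hpm
                   refine le_trans (Real.rpow_le_rpow_of_exponent_le (by norm_num) ?_) (h6 p hp hpm)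
                   have : τ ≤ γ₀ := (min_le_left _ _).trans (min_le_right _ _)
                   exact mul_le_mul_of_nonneg_right this hi0
             exact_mod_cast Finset.card_le_card hsub
           btr := by
             intro i hi a L hL
             refine (hbtr i (by omega) a L hL).trans ?_
             have hi0 : (0 : ℝ) < i := by
               have : 0 < i := by omega
               exact_mod_cast this
             gcongr
             exact le_max_left _ _ }, rfl⟩

/-- for every `ε > 0` there is `η₀ > 0` such that the construction works, with `|f(n)| ≤ n^(-1+ε)`,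
as soon as `ζ` has only finitely many zeros with real part `> 1/2 + η₀` -/
theorem mainQ (ε : ℝ) (hε : 0 < ε) : ∃ η₀ c : ℝ, 0 < η₀ ∧ η₀ < 1 / 2 ∧ 0 < c ∧
    (FinRight (1 / 2 + η₀) → ConclB ε c) := by
  obtain ⟨η₀, δ, h0, h1, hδ, hδε, h⟩ := exists_envQ ε hε
  refine ⟨η₀, δ / 2, h0, h1, by positivity, fun hfin => ?_⟩
  obtain ⟨E, hE⟩ := h hfin
  obtain ⟨f, hf1, hf2, hf3, C, hC, hb⟩ := conclb_of_env E
  rw [hE] at hf3 hb
  refine ⟨f, hf1, hf2, fun n hn => (hf3 n hn).trans ?_, C, hC, hb⟩
  exact Real.rpow_le_rpow_of_exponent_le (by exact_mod_cast hn) (by linarith)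

end Pool.Agent.Q27.QR
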