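import Pool.Agent.W76.MO.Stmts

/-!
# The construction under a weaker hypothesis: finitely many zeros to the right of `Re s = θ`
-/

set_option autoImplicit false

namespace Pool.Agent.Q27.QR

open Finset Filter Topology
open scoped Classical
open Pool.Agent.W76.MO

/-- `ζ` has only finitely many zeros with real part `> θ` -/
def FinRight (θ : ℝ) : Prop := {s : ℂ | riemannZeta s = 0 ∧ θ < s.re}.Finite

/-- the properties of `A(s) = -ζ'/ζ(s) - 1/(s-1) + ∑_{ρ ∈ l} 1/(s-ρ)` which are used -/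
structure IsAE (θ : ℝ) (l : List ℂ) (A : ℂ → ℂ) : Prop where
  diff : DifferentiableOn ℂ A {s : ℂ | θ < s.re}
  eq : ∀ s : ℂ, 1 < s.re →
    A s = LSeries (fun n => (ArithmeticFunction.vonMangoldt n : ℂ)) s - 1 / (s - 1) +
      (l.map (fun ρ => 1 / (s - ρ))).sum
  bound : ∀ σ₀ : ℝ, θ < σ₀ → ∃ C : ℝ, 0 < C ∧ ∀ s : ℂ, σ₀ ≤ s.re → s.re ≤ 2 →
    ‖A s‖ ≤ C * Real.log (|s.im| + 3)

/-- (ZAE) -/
def ZAE : Prop := ∀ θ : ℝ, 1 / 2 ≤ θ → θ < 1 → FinRight θ →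
  ∃ l : List ℂ, (∀ ρ ∈ l, ρ.re < 1) ∧ ∃ A : ℂ → ℂ, IsAE θ l A

/-- the contribution of an exceptional zero -/
noncomputable def EG (ρ : ℂ) (η y : ℝ) : ℂ :=
  ∫ x in Set.Ioi (1 : ℝ), (x : ℂ) ^ (ρ - 1) *
    (Real.exp (-(Real.log x - Real.log y) ^ 2 / (2 * η ^ 2)) : ℂ)

end Pool.Agent.Q27.QR
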